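import Pool.Agent.Q302.NS.Uniq

/-!
# Every positive finite number of Polish semigroup topologies occurs

The semigroup consists of the permutations of `ℕ` and of the constant maps of `ℕ ⊔ Fin k`, acting
on `ℕ ⊔ Fin k`; it has exactly `k + 1` Polish semigroup topologies.
-/

set_option autoImplicit false

open Cardinal

namespace Pool.Agent.Results.MP_67072b_lc.AllFiniteNumbers

/-- The cardinal number of the Polish semigroup topologies on a semigroup. -/
noncomputable def numPolish (S : Type) [Semigroup S] : Cardinal :=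
  #{τ : TopologicalSpace S // @PolishSpace S τ ∧ @ContinuousMul S τ _}

open Pool.Agent.Q302.NS in
theorem numPolish_Sg (k : ℕ) : numPolish (Sg k) = ((k + 1 : ℕ) : Cardinal) := by
  have e : Option (Fin k) ≃
      {τ : TopologicalSpace (Sg k) // @PolishSpace (Sg k) τ ∧ @ContinuousMul (Sg k) τ _} := by
    refine Equiv.ofBijective (fun o => ⟨τS o, polish_τS o, continuousMul_τS o⟩) ⟨?_, ?_⟩
    · intro o o' h
      exact τS_injective (congrArg Subtype.val h)
    · rintro ⟨τ, hP, hM⟩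
      obtain ⟨o, ho⟩ := exists_eq_τS τ hP hM
      exact ⟨o, Subtype.ext ho.symm⟩
  rw [numPolish, ← Cardinal.mk_congr e]
  simp

theorem result :
    (∀ n : ℕ, 1 ≤ n → ∃ (S : Type) (_ : Semigroup S), numPolish S = (n : Cardinal)) ∧
    ¬ (∀ κ : Cardinal.{0}, (∃ (S : Type) (_ : Semigroup S), numPolish S = κ) ↔
      κ = 0 ∨ κ = 1 ∨ κ = ℵ₀ ∨ κ = 𝔠 ∨ κ = 2 ^ 𝔠) := by
  have h : ∀ n : ℕ, 1 ≤ n → ∃ (S : Type) (_ : Semigroup S), numPolish S = (n : Cardinal) := by
    intro n hn
    obtain ⟨k, rfl⟩ : ∃ k, n = k + 1 := ⟨n - 1, by omega⟩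
    exact ⟨Pool.Agent.Q302.NS.Sg k, inferInstance, numPolish_Sg k⟩
  refine ⟨h, fun hall => ?_⟩
  have h2 := (hall ((2 : ℕ) : Cardinal)).1 (h 2 (by norm_num))
  have h3 : ((2 : ℕ) : Cardinal.{0}) < ℵ₀ := Cardinal.natCast_lt_aleph0
  rcases h2 with h2 | h2 | h2 | h2 | h2
  · have : ((2 : ℕ) : Cardinal.{0}) = ((0 : ℕ) : Cardinal.{0}) := by rw [h2]; simp
    exact absurd (Nat.cast_injective this) (by norm_num)
  · have : ((2 : ℕ) : Cardinal.{0}) = ((1 : ℕ) : Cardinal.{0}) := by rw [h2]; simp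
    exact absurd (Nat.cast_injective this) (by norm_num)
  · rw [h2] at h3
    exact lt_irrefl _ h3
  · rw [h2] at h3
    exact absurd h3 (not_lt.2 Cardinal.aleph0_le_continuum)
  · rw [h2] at h3
    exact absurd h3 (not_lt.2 (Cardinal.aleph0_le_continuum.trans (Cardinal.cantor 𝔠).le))

end Pool.Agent.Results.MP_67072b_lc.AllFiniteNumbers
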